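import Mathlib

/-!
Every subgroup of `S_n` that is Galois closed over a `k`-element set is `m`-closed for
`m = n - ⌈n/k⌉`, and this is best possible.
-/

namespace Pool.Agent.Results.MP_4c291d_al.GaloisWielandt

open Equiv

/-- `G ≤ S_n` is Galois closed over a `k`-element set: it is the invariance group of some set of
functions `k^n → k`. -/
def GaloisClosed (n k : ℕ) (G : Subgroup (Perm (Fin n))) : Prop :=
  ∃ F : Set ((Fin n → Fin k) → Fin k), ∀ σ : Perm (Fin n),
    σ ∈ G ↔ ∀ f ∈ F, ∀ a : Fin n → Fin k, f (fun i => a (σ i)) = f a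

/-- `G ≤ S_n` is `m`-closed: it is the set of all permutations preserving every member of some set
of `m`-ary relations on the `n` points. -/
def MClosed (n m : ℕ) (G : Subgroup (Perm (Fin n))) : Prop :=
  ∃ R : Set (Set (Fin m → Fin n)), ∀ σ : Perm (Fin n),
    σ ∈ G ↔ ∀ ρ ∈ R, ∀ r ∈ ρ, (fun i => σ (r i)) ∈ ρ

/-- Upper bound. -/
theorem upper {n k : ℕ} (hn : 2 ≤ n) (hk : 2 ≤ k) {m c : ℕ} (hc : n ≤ k * c)
    (hc' : ∀ c', n ≤ k * c' → c ≤ c') (hm : m + c = n) (hm1 : 1 ≤ m)
    (G : Subgroup (Perm (Fin n))) (hG : GaloisClosed n k G) : MClosed n m G := by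
  classical
  obtain ⟨F, hF⟩ := hG
  refine ⟨{ρ | ∀ σ ∈ G, ∀ r ∈ ρ, (fun i => σ (r i)) ∈ ρ}, fun π => ⟨fun hπ ρ hρ => hρ π hπ, ?_⟩⟩
  intro hπ
  rw [hF]
  intro f hf a
  -- a colour class with at least `c` elements
  obtain ⟨c₀, hc₀⟩ : ∃ c₀ : Fin k, c ≤ (Finset.univ.filter (fun i => a i = c₀)).card := by
    by_contra hcon
    push Not at hcon
    have h1 : ∀ c₀ : Fin k, (Finset.univ.filter (fun i => a i = c₀)).card ≤ c - 1 := fun c₀ => by
      have := hcon c₀; omega
    have h2 : (Finset.univ : Finset (Fin n)).card =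
        ∑ c₀ : Fin k, (Finset.univ.filter (fun i => a i = c₀)).card :=
      Finset.card_eq_sum_card_fiberwise (fun i _ => Finset.mem_univ (a i))
    have h3 : n ≤ k * (c - 1) := by
      calc n = (Finset.univ : Finset (Fin n)).card := by simp
        _ = ∑ c₀ : Fin k, (Finset.univ.filter (fun i => a i = c₀)).card := h2
        _ ≤ ∑ _c₀ : Fin k, (c - 1) := Finset.sum_le_sum fun c₀ _ => h1 c₀
        _ = k * (c - 1) := by simp
    have h4 := hc' _ h3
    have h5 : c = 0 := by omega
    subst h5
    omega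
  -- the points whose image is not in this class
  let S : Finset (Fin n) := Finset.univ.filter (fun i => a (π i) ≠ c₀)
  have hS : S.card ≤ m := by
    have h1 : S.card = (Finset.univ.filter (fun i => a i ≠ c₀)).card := by
      apply Finset.card_bij (fun i _ => π i)
      · intro i hi; simpa [S] using hi
      · intro i _ j _ hij; exact π.injective hij
      · intro j hj
        refine ⟨π.symm j, ?_, by simp⟩
        simpa [S] using hj
    have h2 := Finset.card_filter_add_card_filter_not (s := (Finset.univ : Finset (Fin n)))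
      (fun i => a i = c₀)
    simp only [Finset.card_univ, Fintype.card_fin] at h2
    have h3 : (Finset.univ.filter (fun i => ¬ a i = c₀)).card = S.card := h1.symm
    omega
  -- a tuple containing all of them
  obtain ⟨r, hr⟩ : ∃ r : Fin m → Fin n, ∀ i ∈ S, ∃ j, r j = i := by
    have : Nonempty (S ↪ Fin m) := by
      rw [Function.Embedding.nonempty_iff_card_le]
      simpa using hS
    obtain ⟨e⟩ := this
    haveI : Nonempty (Fin n) := ⟨⟨0, by omega⟩⟩
    refine ⟨Function.extend e Subtype.val (fun _ => Classical.arbitrary _), fun i hi => ⟨e ⟨i, hi⟩, ?_⟩⟩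
    rw [e.injective.extend_apply]
  obtain ⟨g, hg, hgr⟩ : ∃ g ∈ G, ∀ j, g (r j) = π (r j) := by
    have h1 := hπ {s | ∃ g ∈ G, s = fun i => g (r i)} (by
      rintro σ hσ s ⟨g, hg, rfl⟩
      exact ⟨σ * g, G.mul_mem hσ hg, rfl⟩) r ⟨1, G.one_mem, rfl⟩
    obtain ⟨g, hg, h⟩ := h1
    exact ⟨g, hg, fun j => (congrFun h j).symm⟩
  have hgS : ∀ i ∈ S, g i = π i := by
    intro i hi
    obtain ⟨j, rfl⟩ := hr i hi
    exact hgr j
  have hag : ∀ i, a (g i) = a (π i) := by
    intro i
    by_cases hi : i ∈ S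
    · rw [hgS i hi]
    · have h1 : a (π i) = c₀ := by simpa [S] using hi
      by_contra h2
      have h3 : a (g i) ≠ c₀ := by rw [← h1]; exact h2
      have h4 : π.symm (g i) ∈ S := by simpa [S] using h3
      have h5 := hgS _ h4
      rw [Equiv.apply_symm_apply] at h5
      have h6 := g.injective h5
      rw [h6] at h4
      exact hi h4
  have h1 : (fun i => a (π i)) = fun i => a (g i) := funext fun i => (hag i).symm
  rw [h1]
  exact (hF g).1 hg f hf a

/-! ### The lower bound -/

/-- block index -/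
def blk (k : ℕ) {n : ℕ} (i : Fin n) : ℕ := i.1 / k

/-- rainbow on every block -/
def Rainbow {n k : ℕ} (a : Fin n → Fin k) : Prop :=
  ∀ i j : Fin n, blk k i = blk k j → a i = a j → i = j

/-- sorting key -/
def key {n k : ℕ} (a : Fin n → Fin k) (i : Fin n) : ℕ := blk k i * k + (a i).1

theorem key_inj {n k : ℕ} {a : Fin n → Fin k} (ha : Rainbow a) : Function.Injective (key a) := by
  intro i j hij
  unfold key at hij
  have h1 := (a i).2
  have h2 := (a j).2
  have hk : 0 < k := by omega
  have h3 : blk k i = blk k j := by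
    have := congrArg (· / k) hij
    simpa [Nat.add_div hk, Nat.mul_div_cancel _ hk, Nat.div_eq_of_lt h1, Nat.div_eq_of_lt h2,
      Nat.mod_eq_of_lt h1, Nat.mod_eq_of_lt h2, h1, h2, Nat.not_le.2 h1, Nat.not_le.2 h2] using this
  rw [h3] at hij
  exact ha i j h3 (Fin.ext (by omega))

/-- the distinguishing function -/
noncomputable def fn {n k : ℕ} (z o : Fin k) (a : Fin n → Fin k) : Fin k := by
  classical
  exact if Rainbow a ∧ Perm.sign (Tuple.sort (key a)) = 1 then o else z

theorem rainbow_comp {n k : ℕ} {a : Fin n → Fin k} (τ : Perm (Fin n))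
    (hτ : ∀ i, blk k (τ i) = blk k i) : Rainbow (fun i => a (τ i)) ↔ Rainbow a := by
  constructor
  · intro h i j hij haij
    have hτ' : ∀ i, blk k (τ.symm i) = blk k i := fun i => by
      conv_rhs => rw [← τ.apply_symm_apply i]
      rw [hτ]
    have := h (τ.symm i) (τ.symm j) (by rw [hτ', hτ', hij]) (by simpa using haij)
    exact τ.symm.injective this
  · intro h i j hij haij
    exact τ.injective (h (τ i) (τ j) (by rw [hτ, hτ, hij]) haij)

theorem sort_comp {n k : ℕ} {a : Fin n → Fin k} (ha : Rainbow a) (τ : Perm (Fin n))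
    (hτ : ∀ i, blk k (τ i) = blk k i) :
    Tuple.sort (key (fun i => a (τ i))) = τ⁻¹ * Tuple.sort (key a) := by
  have h1 : key (fun i => a (τ i)) = key a ∘ τ := by
    funext i
    simp [key, hτ]
  have h2 : Monotone ((key a ∘ τ) ∘ (Tuple.sort (key a ∘ τ))) := Tuple.monotone_sort _
  have h3 : Monotone ((key a ∘ τ) ∘ (τ⁻¹ * Tuple.sort (key a) : Perm (Fin n))) := by
    have : (key a ∘ τ) ∘ (τ⁻¹ * Tuple.sort (key a) : Perm (Fin n)) = key a ∘ Tuple.sort (key a) := by
      funext i; simp
    rw [this]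
    exact Tuple.monotone_sort _
  have h4 := Tuple.unique_monotone h2 h3
  rw [h1]
  ext i
  have h5 := congrFun h4 i
  have h6 := (key_inj ha).comp τ.injective
  have h7 := h6 h5
  exact congrArg Fin.val h7

theorem fn_comp {n k : ℕ} {z o : Fin k} {a : Fin n → Fin k} (τ : Perm (Fin n))
    (hτ : ∀ i, blk k (τ i) = blk k i) (hs : Perm.sign τ = 1) :
    fn z o (fun i => a (τ i)) = fn z o a := by
  classical
  unfold fn
  by_cases ha : Rainbow a
  · simp only [rainbow_comp τ hτ, ha, true_and, sort_comp ha τ hτ, map_mul, Perm.sign_inv, hs,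
      one_mul]
  · simp only [rainbow_comp τ hτ, ha, false_and, if_false]

theorem fn_ne {n k : ℕ} {z o : Fin k} (hzo : z ≠ o) {a : Fin n → Fin k} (ha : Rainbow a)
    (τ : Perm (Fin n)) (hτ : ∀ i, blk k (τ i) = blk k i) (hs : Perm.sign τ = -1) :
    fn z o (fun i => a (τ i)) ≠ fn z o a := by
  classical
  unfold fn
  simp only [rainbow_comp τ hτ, ha, true_and, sort_comp ha τ hτ, map_mul, Perm.sign_inv, hs]
  rcases Int.units_eq_one_or (Perm.sign (Tuple.sort (key a))) with h | h
  · rw [h]; simp [hzo]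
  · rw [h]; simp [hzo.symm]

theorem blk_swap {n k : ℕ} {u v : Fin n} (huv : blk k u = blk k v) (i : Fin n) :
    blk k (swap u v i) = blk k i := by
  by_cases hu : i = u
  · subst hu; rw [swap_apply_left, huv]
  · by_cases hv : i = v
    · subst hv; rw [swap_apply_right, huv]
    · rw [swap_apply_of_ne_of_ne hu hv]

theorem lower {n k : ℕ} (hn : 2 ≤ n) (hk : 2 ≤ k) {c : ℕ} (hc : n ≤ k * c) {m' : ℕ}
    (hm' : m' + c < n) :
    ∃ G : Subgroup (Perm (Fin n)), GaloisClosed n k G ∧ ¬ MClosed n m' G := by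
  classical
  let z : Fin k := ⟨0, by omega⟩
  let o : Fin k := ⟨1, by omega⟩
  have hzo : z ≠ o := by simp [z, o]
  let G : Subgroup (Perm (Fin n)) :=
    { carrier := {σ | ∀ a : Fin n → Fin k, fn z o (fun i => a (σ i)) = fn z o a}
      mul_mem' := by
        intro σ τ hσ hτ a
        have h1 := hτ (fun i => a (σ i))
        have h2 := hσ a
        simp only [Perm.coe_mul, Function.comp]
        rw [h1, h2]
      one_mem' := fun a => rfl
      inv_mem' := by
        intro σ hσ a
        have h1 := hσ (fun i => a (σ⁻¹ i))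
        have h2 : (fun i => a (σ⁻¹ (σ i))) = a := funext fun i => by
          rw [← Perm.mul_apply, inv_mul_cancel, Perm.one_apply]
        rw [h2] at h1
        exact h1.symm }
  have hmem : ∀ σ, σ ∈ G ↔ ∀ a : Fin n → Fin k, fn z o (fun i => a (σ i)) = fn z o a :=
    fun σ => Iff.rfl
  refine ⟨G, ⟨{fn z o}, fun σ => by rw [hmem]; simp⟩, ?_⟩
  rintro ⟨R, hR⟩
  let p₀ : Fin n := ⟨0, by omega⟩
  let p₁ : Fin n := ⟨1, by omega⟩
  have hp : p₀ ≠ p₁ := by simp [p₀, p₁]
  have hblk : blk k p₀ = blk k p₁ := by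
    simp only [blk, p₀, p₁]
    rw [Nat.div_eq_of_lt (by omega), Nat.div_eq_of_lt (by omega)]
  let π : Perm (Fin n) := swap p₀ p₁
  -- `π` is not in `G`
  have hπ : π ∉ G := by
    intro h
    let a : Fin n → Fin k := fun i => ⟨i.1 % k, Nat.mod_lt _ (by omega)⟩
    have ha : Rainbow a := by
      intro i j h1 h2
      have h3 : i.1 % k = j.1 % k := congrArg Fin.val h2
      have h4 : i.1 / k = j.1 / k := h1
      apply Fin.ext
      rw [← Nat.div_add_mod i.1 k, ← Nat.div_add_mod j.1 k, h3, h4]
    exact fn_ne hzo ha π (blk_swap hblk) (Perm.sign_swap hp) (h a)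
  apply hπ
  rw [hR]
  intro ρ hρ r hr
  -- two points of one block not in the range of `r`
  obtain ⟨u, v, huv, hb, hu, hv⟩ : ∃ u v : Fin n, u ≠ v ∧ blk k u = blk k v ∧
      (∀ i, r i ≠ u) ∧ (∀ i, r i ≠ v) := by
    let T : Finset (Fin n) := Finset.univ \ Finset.univ.image r
    have hT : c < T.card := by
      have h1 : (Finset.univ.image r).card ≤ m' := by
        simpa using Finset.card_image_le (s := (Finset.univ : Finset (Fin m'))) (f := r)
      have h2 := Finset.card_sdiff_add_card_inter (Finset.univ : Finset (Fin n))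
        (Finset.univ.image r)
      simp only [Finset.univ_inter, Finset.card_univ, Fintype.card_fin] at h2
      change c < (Finset.univ \ Finset.univ.image r).card
      omega
    obtain ⟨u, hu, v, hv, huv, hb⟩ := Finset.exists_ne_map_eq_of_card_lt_of_maps_to
      (s := T) (t := Finset.range c) (by simpa using hT) (f := blk k) (by
        intro i _
        simp only [Finset.coe_range, Set.mem_Iio, blk]
        rw [Nat.div_lt_iff_lt_mul (by omega)]
        have := i.2
        rw [Nat.mul_comm]
        omega)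
    simp only [T, Finset.mem_sdiff, Finset.mem_univ, Finset.mem_image, true_and, not_exists] at hu hv
    exact ⟨u, v, huv, hb, hu, hv⟩
  let g : Perm (Fin n) := π * swap u v
  have hg : g ∈ G := by
    intro a
    have h1 : (fun i => a (g i)) = fun i => (fun i => a (π i)) (swap u v i) := rfl
    have h2 : ∀ i, blk k (g i) = blk k i := fun i => by
      change blk k (π (swap u v i)) = _
      rw [blk_swap hblk, blk_swap hb]
    apply fn_comp g h2
    change Perm.sign (π * swap u v) = 1
    rw [map_mul, Perm.sign_swap huv]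
    change Perm.sign (swap p₀ p₁) * -1 = 1
    rw [Perm.sign_swap hp]
    rfl
  have h1 : (fun i => π (r i)) = fun i => g (r i) := by
    funext i
    change _ = π (swap u v (r i))
    rw [swap_apply_of_ne_of_ne (hu i) (hv i)]
  rw [h1]
  exact (hR g).1 hg ρ hρ r hr

/-- For all `n, k ≥ 2` the least `m ≥ 1` such that every subgroup of `S_n` that is Galois closed
over a `k`-element set is `m`-closed equals `n - ⌈n/k⌉`. -/
theorem result (n k : ℕ) (hn : 2 ≤ n) (hk : 2 ≤ k) :
    IsLeast {m : ℕ | 1 ≤ m ∧ ∀ G : Subgroup (Perm (Fin n)), GaloisClosed n k G → MClosed n m G}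
      (n - ⌈(n : ℚ) / k⌉₊) := by
  set c := ⌈(n : ℚ) / k⌉₊ with hcdef
  have hk0 : (0 : ℚ) < k := by exact_mod_cast (by omega : 0 < k)
  have hiff : ∀ c' : ℕ, c ≤ c' ↔ n ≤ k * c' := by
    intro c'
    rw [hcdef, Nat.ceil_le, div_le_iff₀ hk0]
    constructor
    · intro h
      have : (n : ℚ) ≤ ((k * c' : ℕ) : ℚ) := by push_cast; linarith [mul_comm (k : ℚ) c']
      exact_mod_cast this
    · intro h
      have : (n : ℚ) ≤ ((k * c' : ℕ) : ℚ) := by exact_mod_cast h
      push_cast at this
      linarith [mul_comm (k : ℚ) c']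
  have hc : n ≤ k * c := (hiff c).1 le_rfl
  have hcn : c + 1 ≤ n := by
    have h1 : c ≤ n - 1 := by
      rw [hiff]
      have : 2 * (n - 1) ≤ k * (n - 1) := Nat.mul_le_mul_right _ hk
      omega
    omega
  constructor
  · refine ⟨by omega, fun G hG => ?_⟩
    exact upper hn hk hc (fun c' h => (hiff c').2 h) (by omega) (by omega) G hG
  · rintro m ⟨hm1, hm⟩
    by_contra hcon
    push Not at hcon
    obtain ⟨G, hG, hG'⟩ := lower hn hk hc (m' := m) (by omega)
    exact hG' (hm G hG)

end Pool.Agent.Results.MP_4c291d_al.GaloisWielandt
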